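import Pool.Agent.Y546.WQ.Stm2

/-!
# The norm polynomial `N (x + T y)` (project WG)
-/

set_option autoImplicit false

namespace Pool.Agent.Y290.WQ

open NumberField Polynomial Module
open Pool.Agent.Y546.WQ

/-- the norm as a product over the embeddings in a field which contains all conjugates -/
theorem norm_prod (K N : Type) [Field K] [NumberField K] [Field N] [NumberField N]
    (h : Nat.card (K →+* N) = finrank ℚ K) (w : K) :
    ((Algebra.norm ℚ w : ℚ) : N) = ∏ τ : K →+* N, τ w := by
  classical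
  let Φ : (K →+* N) → (K →ₐ[ℚ] AlgebraicClosure N) := fun τ =>
    ((algebraMap N (AlgebraicClosure N)).comp τ).toRatAlgHom
  have hΦ : ∀ τ w, Φ τ w = algebraMap N (AlgebraicClosure N) (τ w) := fun τ w => rfl
  have hinj : Function.Injective Φ := by
    intro τ τ' hτ
    ext w
    have := DFunLike.congr_fun hτ w
    rw [hΦ, hΦ] at this
    exact (algebraMap N (AlgebraicClosure N)).injective this
  have hcard : Fintype.card (K →+* N) = Fintype.card (K →ₐ[ℚ] AlgebraicClosure N) := by
    rw [AlgHom.card, ← h, Nat.card_eq_fintype_card]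
  have hbij : Function.Bijective Φ :=
    (Fintype.bijective_iff_injective_and_card Φ).2 ⟨hinj, hcard⟩
  apply (algebraMap N (AlgebraicClosure N)).injective
  rw [map_prod]
  have h1 := Algebra.norm_eq_prod_embeddings ℚ (AlgebraicClosure N) w
  have h2 : algebraMap N (AlgebraicClosure N) ((Algebra.norm ℚ w : ℚ) : N) =
      algebraMap ℚ (AlgebraicClosure N) (Algebra.norm ℚ w) := by
    rw [map_ratCast, eq_ratCast]
  rw [h2, h1]
  exact (Fintype.prod_bijective Φ hbij _ _ fun τ => (hΦ τ w).symm).symm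

theorem mainNORM : S_NORM := by
  classical
  intro K _ _ x y
  set b := RingOfIntegers.basis K with hb
  have hcard : Fintype.card (Free.ChooseBasisIndex ℤ (𝓞 K)) = finrank ℚ K := by
    rw [← finrank_eq_card_chooseBasisIndex, RingOfIntegers.rank]
  set A := Algebra.leftMulMatrix b y with hA
  set B := Algebra.leftMulMatrix b x with hB
  set f : ℤ[X] := Matrix.det ((X : ℤ[X]) • A.map C + B.map C) with hf
  have hev : ∀ t : ℤ, f.eval t = Algebra.norm ℤ (x + (t : 𝓞 K) * y) := by
    intro t
    have h1 : f.eval t = (Polynomial.evalRingHom t) f := rfl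
    rw [h1, hf, RingHom.map_det, Algebra.norm_eq_matrix_det b]
    congr 1
    have h2 : x + (t : 𝓞 K) * y = t • y + x := by rw [zsmul_eq_mul]; ring
    have h3 : Algebra.leftMulMatrix b (x + (t : 𝓞 K) * y) = t • A + B := by
      rw [h2, map_add, map_smul]
    rw [h3]
    ext i j
    simp only [RingHom.mapMatrix_apply, Matrix.map_apply, Matrix.add_apply, Matrix.smul_apply,
      smul_eq_mul, coe_evalRingHom, eval_add, eval_mul, eval_X, eval_C]
  refine ⟨f, ?_, ?_, ?_, hev, ?_⟩
  · rw [← hcard]
    exact Polynomial.natDegree_det_X_add_C_le A B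
  · rw [hf, Polynomial.coeff_det_X_add_C_zero, Algebra.norm_eq_matrix_det b]
  · rw [← hcard, hf, Polynomial.coeff_det_X_add_C_card, Algebra.norm_eq_matrix_det b]
  · intro N _ _ hN
    refine Polynomial.eq_of_infinite_eval_eq _ _ ?_
    refine Set.Infinite.mono ?_ (Set.infinite_range_of_injective
      (Int.cast_injective : Function.Injective (Int.cast : ℤ → 𝓞 N)))
    rintro _ ⟨t, rfl⟩
    change eval (t : 𝓞 N) (f.map (Int.castRingHom (𝓞 N))) = eval (t : 𝓞 N) (nrmP K N x y)
    rw [Polynomial.eval_intCast_map, Int.cast_id, hev]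
    unfold nrmP
    rw [Polynomial.eval_prod]
    apply RingOfIntegers.ext
    have h3 := norm_prod K N hN ((x + (t : 𝓞 K) * y : 𝓞 K) : K)
    rw [← Algebra.coe_norm_int] at h3
    have h4 : (((Int.castRingHom (𝓞 N)) (Algebra.norm ℤ (x + (t : 𝓞 K) * y)) : 𝓞 N) : N) =
        (((Algebra.norm ℤ (x + (t : 𝓞 K) * y) : ℤ) : ℚ) : N) := by
      simp
    rw [h4, h3]
    have h5 : ((∏ τ : K →+* N, eval (t : 𝓞 N) (Polynomial.C (RingOfIntegers.mapRingHom τ x) +
        X * Polynomial.C (RingOfIntegers.mapRingHom τ y)) : 𝓞 N) : N) =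
        ∏ τ : K →+* N, ((eval (t : 𝓞 N) (Polynomial.C (RingOfIntegers.mapRingHom τ x) +
        X * Polynomial.C (RingOfIntegers.mapRingHom τ y)) : 𝓞 N) : N) := by
      exact map_prod (algebraMap (𝓞 N) N) _ _
    rw [h5]
    refine Finset.prod_congr rfl fun τ _ => ?_
    simp only [eval_add, eval_mul, eval_X, eval_C]
    have h6 : (((RingOfIntegers.mapRingHom τ x + (t : 𝓞 N) * RingOfIntegers.mapRingHom τ y) :
        𝓞 N) : N) = τ (x : K) + (t : N) * τ (y : K) := by
      simp [RingOfIntegers.mapRingHom_apply]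
    rw [h6]
    simp

end Pool.Agent.Y290.WQ
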